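import Mathlib

set_option autoImplicit false

/-!
Integer matrices with prescribed margins, decomposition of regular integer matrices into
permutations, and coverings of a bipartite graph by matchings of one fixed size.
-/

namespace Pool.Agent.Q253.BipCover

open Finset

/-- Transportation: an integer matrix with prescribed row and column sums and prescribed
support, under Hall's condition. -/
theorem transport {R C : Type*} [Fintype R] [Fintype C] [DecidableEq R] [DecidableEq C]
    (a : R → ℕ) (b : C → ℕ) (tot : ∑ i, a i = ∑ j, b j) (P : R → C → Prop)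
    [∀ i j, Decidable (P i j)]
    (hall : ∀ S : Finset R, ∑ i ∈ S, a i ≤ ∑ j ∈ univ.filter (fun j => ∃ i ∈ S, P i j), b j) :
    ∃ N : R → C → ℕ, (∀ i, ∑ j, N i j = a i) ∧ (∀ j, ∑ i, N i j = b j) ∧
      ∀ i j, N i j ≠ 0 → P i j := by
  classical
  let t : (Σ i : R, Fin (a i)) → Finset (Σ j : C, Fin (b j)) :=
    fun u => univ.filter (fun w => P u.1 w.1)
  have hH : ∀ U : Finset (Σ i : R, Fin (a i)), U.card ≤ (U.biUnion t).card := by
    intro U
    have h1 : U ⊆ (U.image Sigma.fst).sigma (fun i => (univ : Finset (Fin (a i)))) := by
      intro u hu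
      simp only [Finset.mem_sigma, Finset.mem_image, Finset.mem_univ, and_true]
      exact ⟨u, hu, rfl⟩
    have h2 : (univ.filter (fun j : C => ∃ i ∈ U.image Sigma.fst, P i j)).sigma
        (fun j => (univ : Finset (Fin (b j)))) ⊆ U.biUnion t := by
      intro w hw
      simp only [Finset.mem_sigma, Finset.mem_filter, Finset.mem_univ, true_and, and_true,
        Finset.mem_image] at hw
      obtain ⟨i, ⟨u, hu, rfl⟩, hP⟩ := hw
      simp only [Finset.mem_biUnion]
      exact ⟨u, hu, by simp [t, hP]⟩
    calc U.card ≤ ((U.image Sigma.fst).sigma (fun i => (univ : Finset (Fin (a i))))).card :=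
          Finset.card_le_card h1
      _ = ∑ i ∈ U.image Sigma.fst, a i := by simp
      _ ≤ ∑ j ∈ univ.filter (fun j => ∃ i ∈ U.image Sigma.fst, P i j), b j := hall _
      _ = ((univ.filter (fun j : C => ∃ i ∈ U.image Sigma.fst, P i j)).sigma
        (fun j => (univ : Finset (Fin (b j))))).card := by simp
      _ ≤ _ := Finset.card_le_card h2
  obtain ⟨f, hf1, hf2⟩ := (Finset.all_card_le_biUnion_card_iff_exists_injective t).1 hH
  have hcard : Fintype.card (Σ i : R, Fin (a i)) = Fintype.card (Σ j : C, Fin (b j)) := by
    simp [Fintype.card_sigma, tot]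
  have hbij : Function.Bijective f := (Fintype.bijective_iff_injective_and_card f).2 ⟨hf1, hcard⟩
  refine ⟨fun i j => (univ.filter (fun u : Fin (a i) => (f ⟨i, u⟩).1 = j)).card, ?_, ?_, ?_⟩
  · intro i
    have := Finset.card_eq_sum_card_fiberwise (f := fun u : Fin (a i) => (f ⟨i, u⟩).1)
      (s := univ) (t := univ) (fun _ _ => by simp)
    simpa using this.symm
  · intro j
    have h1 : ∑ i, (univ.filter (fun u : Fin (a i) => (f ⟨i, u⟩).1 = j)).card
        = (univ.filter (fun u : (Σ i : R, Fin (a i)) => (f u).1 = j)).card := by
      rw [← Finset.card_sigma]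
      refine Finset.card_bij (fun (x : Σ i : R, Fin (a i)) _ => x) ?_ ?_ ?_
      · rintro ⟨i, u⟩ hx
        simpa using hx
      · intro x _ y _ h
        exact h
      · rintro ⟨i, u⟩ hx
        exact ⟨⟨i, u⟩, by simpa using hx, rfl⟩
    have h2 : (univ.filter (fun u : (Σ i : R, Fin (a i)) => (f u).1 = j)).card
        = (univ.filter (fun w : (Σ j : C, Fin (b j)) => w.1 = j)).card := by
      refine Finset.card_bij (fun x _ => f x) ?_ ?_ ?_
      · intro x hx
        simpa using hx
      · intro x _ y _ h
        exact hf1 h
      · intro w hw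
        obtain ⟨u, rfl⟩ := hbij.2 w
        exact ⟨u, by simpa using hw, rfl⟩
    have h3 : (univ.filter (fun w : (Σ j : C, Fin (b j)) => w.1 = j)).card = b j := by
      have h4 : (univ.filter (fun w : (Σ j : C, Fin (b j)) => w.1 = j))
          = (univ : Finset (Fin (b j))).map ⟨fun u => (⟨j, u⟩ : Σ j : C, Fin (b j)),
            fun x y h => by simpa using h⟩ := by
        ext ⟨j', u⟩
        simp only [Finset.mem_filter, Finset.mem_univ, true_and, Finset.mem_map]
        constructor
        · rintro rfl
          exact ⟨u, rfl⟩
        · rintro ⟨u', h⟩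
          exact (congrArg Sigma.fst h).symm
      rw [h4, Finset.card_map]
      simp
    show ∑ i, (univ.filter (fun u : Fin (a i) => (f ⟨i, u⟩).1 = j)).card = b j
    rw [h1, h2, h3]
  · intro i j hne
    obtain ⟨u, hu⟩ := Finset.card_pos.1 (Nat.pos_of_ne_zero hne)
    simp only [Finset.mem_filter, Finset.mem_univ, true_and] at hu
    have := hf2 ⟨i, u⟩
    simp only [t, Finset.mem_filter, Finset.mem_univ, true_and] at this
    rw [hu] at this
    exact this

/-- A `k`-regular non-negative integer matrix is a sum of `k` permutation matrices. -/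
theorem regular_decomp {R C : Type*} [Fintype R] [Fintype C] [DecidableEq R] [DecidableEq C]
    (k : ℕ) : ∀ (N : R → C → ℕ), (∀ i, ∑ j, N i j = k) → (∀ j, ∑ i, N i j = k) →
    ∃ σ : Fin k → (R ≃ C), ∀ i j, N i j = (univ.filter (fun a => σ a i = j)).card := by
  classical
  induction k with
  | zero =>
    intro N hr _
    refine ⟨fun a => a.elim0, fun i j => ?_⟩
    have h := hr i
    have h2 : N i j = 0 := (Finset.sum_eq_zero_iff.1 h) j (Finset.mem_univ j)
    rw [h2]
    simp
  | succ k ih =>
    intro N hr hc
    -- a permutation in the support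
    have hcardRC : Fintype.card R = Fintype.card C := by
      have h1 : ∑ i, ∑ j, N i j = Fintype.card R * (k + 1) := by simp [hr]
      have h2 : ∑ j, ∑ i, N i j = Fintype.card C * (k + 1) := by simp [hc]
      rw [Finset.sum_comm] at h1
      exact Nat.eq_of_mul_eq_mul_right (Nat.succ_pos k) (h1.symm.trans h2)
    have hH : ∀ S : Finset R, S.card ≤ (S.biUnion fun i => univ.filter fun j => N i j ≠ 0).card := by
      intro S
      set T := S.biUnion fun i => univ.filter fun j => N i j ≠ 0 with hT
      have h1 : ∑ i ∈ S, ∑ j ∈ T, N i j = S.card * (k + 1) := by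
        have : ∀ i ∈ S, ∑ j ∈ T, N i j = k + 1 := by
          intro i hi
          rw [← hr i]
          refine Finset.sum_subset (Finset.subset_univ _) ?_
          intro j _ hj
          by_contra hne
          exact hj (Finset.mem_biUnion.2 ⟨i, hi, by simp [hne]⟩)
        rw [Finset.sum_congr rfl this]
        simp
      have h2 : ∑ i ∈ S, ∑ j ∈ T, N i j ≤ T.card * (k + 1) := by
        rw [Finset.sum_comm]
        calc ∑ j ∈ T, ∑ i ∈ S, N i j ≤ ∑ j ∈ T, ∑ i, N i j :=
              Finset.sum_le_sum fun j _ => Finset.sum_le_sum_of_subset (Finset.subset_univ _)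
          _ = T.card * (k + 1) := by simp [hc]
      rw [h1] at h2
      exact Nat.le_of_mul_le_mul_right h2 (Nat.succ_pos k)
    obtain ⟨g, hg, hg'⟩ := (Finset.all_card_le_biUnion_card_iff_exists_injective _).1 hH
    have hgb : Function.Bijective g := (Fintype.bijective_iff_injective_and_card g).2 ⟨hg, hcardRC⟩
    let τ : R ≃ C := Equiv.ofBijective g hgb
    have hτ : ∀ i, N i (τ i) ≠ 0 := by
      intro i
      have h : N i (g i) ≠ 0 := by simpa using hg' i
      exact h
    let N' : R → C → ℕ := fun i j => N i j - if τ i = j then 1 else 0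
    have hN' : ∀ i j, N i j = (if τ i = j then 1 else 0) + N' i j := by
      intro i j
      by_cases h : τ i = j
      · subst h
        have := hτ i
        simp only [N', if_true]
        omega
      · simp [N', h]
    obtain ⟨σ, hσ⟩ := ih N' (by
        intro i
        have h := hr i
        have h1 : ∑ j, N i j = ∑ j, (if τ i = j then 1 else 0) + ∑ j, N' i j := by
          rw [← Finset.sum_add_distrib]
          exact Finset.sum_congr rfl fun j _ => hN' i j
        have h2 : ∑ j, (if τ i = j then 1 else 0) = 1 := by simp
        omega) (by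
        intro j
        have h := hc j
        have h1 : ∑ i, N i j = ∑ i, (if τ i = j then 1 else 0) + ∑ i, N' i j := by
          rw [← Finset.sum_add_distrib]
          exact Finset.sum_congr rfl fun i _ => hN' i j
        have h2 : ∑ i, (if τ i = j then 1 else 0) = 1 := by
          rw [Finset.sum_eq_single (τ.symm j)]
          · simp
          · intro i _ hne
            have : τ i ≠ j := fun h => hne (by rw [← h]; simp)
            simp [this]
          · intro h
            exact absurd (Finset.mem_univ _) h
        omega)
    refine ⟨Fin.cons τ σ, fun i j => ?_⟩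
    rw [hN' i j, hσ i j]
    have : (univ.filter (fun a : Fin (k+1) => (Fin.cons τ σ : Fin (k+1) → (R ≃ C)) a i = j)).card
        = ∑ a : Fin (k+1), if (Fin.cons τ σ : Fin (k+1) → (R ≃ C)) a i = j then 1 else 0 := by
      rw [Finset.card_filter]
    rw [this, Fin.sum_univ_succ, Finset.card_filter]
    simp

/-- Covering a bipartite graph by `k` matchings of exactly `m` edges. -/
theorem cover_bip {X Y : Type*} [Fintype X] [Fintype Y] [DecidableEq X] [DecidableEq Y]
    (E : Finset (X × Y)) (m k : ℕ) (hE : E.card ≤ k * m)
    (dx : ∀ x, (E.filter (fun e => e.1 = x)).card ≤ k)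
    (dy : ∀ y, (E.filter (fun e => e.2 = y)).card ≤ k)
    (hC : ∀ (A : Finset X) (B : Finset Y), (∀ e ∈ E, e.1 ∈ A ∨ e.2 ∈ B) →
      k * m + (E.filter (fun e => e.1 ∈ A ∧ e.2 ∈ B)).card ≤ k * (A.card + B.card)) :
    ∃ F : Fin k → Finset (X × Y), (∀ i, F i ⊆ E) ∧ (∀ i, (F i).card = m) ∧
      (∀ i, ∀ e ∈ F i, ∀ f ∈ F i, e.1 = f.1 → e = f) ∧
      (∀ i, ∀ e ∈ F i, ∀ f ∈ F i, e.2 = f.2 → e = f) ∧
      ∀ e ∈ E, ∃ i, e ∈ F i := by
  classical
  rcases Nat.eq_zero_or_pos k with hk | hk
  · subst hk
    have hE0 : E = ∅ := by
      rw [← Finset.card_eq_zero]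
      omega
    subst hE0
    exact ⟨fun i => i.elim0, fun i => i.elim0, fun i => i.elim0, fun i => i.elim0,
      fun i => i.elim0, fun e he => by simp at he⟩
  have hmX : m ≤ Fintype.card X := by
    have h := hC univ ∅ (fun e _ => Or.inl (Finset.mem_univ _))
    simp only [Finset.card_univ, Finset.card_empty, add_zero] at h
    have h1 : k * m ≤ k * Fintype.card X := by omega
    exact Nat.le_of_mul_le_mul_left h1 hk
  have hmY : m ≤ Fintype.card Y := by
    have h := hC ∅ univ (fun e _ => Or.inr (Finset.mem_univ _))
    simp only [Finset.card_univ, Finset.card_empty, zero_add] at h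
    have h1 : k * m ≤ k * Fintype.card Y := by omega
    exact Nat.le_of_mul_le_mul_left h1 hk
  obtain ⟨q, hq⟩ := Nat.exists_eq_add_of_le hmX
  obtain ⟨p, hp⟩ := Nat.exists_eq_add_of_le hmY
  set dX : X → ℕ := fun x => (E.filter (fun e => e.1 = x)).card with hdX
  set dY : Y → ℕ := fun y => (E.filter (fun e => e.2 = y)).card with hdY
  have sumX : ∀ S : Finset X, ∑ x ∈ S, dX x = (E.filter (fun e => e.1 ∈ S)).card := by
    intro S
    rw [Finset.card_eq_sum_card_fiberwise (f := Prod.fst) (s := E.filter (fun e => e.1 ∈ S))
      (t := S) (fun e he => by simpa using (Finset.mem_filter.1 he).2)]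
    refine Finset.sum_congr rfl fun x hx => ?_
    simp only [hdX]
    congr 1
    ext e
    simp only [Finset.mem_filter]
    constructor
    · rintro ⟨h1, h2⟩
      exact ⟨⟨h1, h2 ▸ hx⟩, h2⟩
    · rintro ⟨⟨h1, _⟩, h2⟩
      exact ⟨h1, h2⟩
  have sumY : ∀ S : Finset Y, ∑ y ∈ S, dY y = (E.filter (fun e => e.2 ∈ S)).card := by
    intro S
    rw [Finset.card_eq_sum_card_fiberwise (f := Prod.snd) (s := E.filter (fun e => e.2 ∈ S))
      (t := S) (fun e he => by simpa using (Finset.mem_filter.1 he).2)]
    refine Finset.sum_congr rfl fun y hy => ?_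
    simp only [hdY]
    congr 1
    ext e
    simp only [Finset.mem_filter]
    constructor
    · rintro ⟨h1, h2⟩
      exact ⟨⟨h1, h2 ▸ hy⟩, h2⟩
    · rintro ⟨⟨h1, _⟩, h2⟩
      exact ⟨h1, h2⟩
  have defX : ∀ S : Finset X, ∑ x ∈ S, (k - dX x) + ∑ x ∈ S, dX x = k * S.card := by
    intro S
    rw [← Finset.sum_add_distrib]
    have : ∀ x ∈ S, (k - dX x) + dX x = k := fun x _ => Nat.sub_add_cancel (dx x)
    rw [Finset.sum_congr rfl this]
    simp [mul_comm]
  have defY : ∀ S : Finset Y, ∑ y ∈ S, (k - dY y) + ∑ y ∈ S, dY y = k * S.card := by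
    intro S
    rw [← Finset.sum_add_distrib]
    have : ∀ y ∈ S, (k - dY y) + dY y = k := fun y _ => Nat.sub_add_cancel (dy y)
    rw [Finset.sum_congr rfl this]
    simp [mul_comm]
  have totX := defX univ
  have totY := defY univ
  rw [sumX] at totX
  rw [sumY] at totY
  simp only [Finset.mem_univ, Finset.filter_true, Finset.card_univ] at totX totY
  let a : X ⊕ Fin p → ℕ := Sum.elim (fun x => k - dX x) (fun _ => k)
  let b : Y ⊕ Fin q → ℕ := Sum.elim (fun y => k - dY y) (fun _ => k)
  let P : X ⊕ Fin p → Y ⊕ Fin q → Prop :=
    fun i j => match i, j with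
      | Sum.inl x, Sum.inl y => (x, y) ∈ E
      | Sum.inl _, Sum.inr _ => True
      | Sum.inr _, Sum.inl _ => True
      | Sum.inr _, Sum.inr _ => False
  have hasum : ∑ i, a i = ∑ x, (k - dX x) + k * p := by
    rw [Fintype.sum_sum_type]
    simp [a, mul_comm]
  have hbsum : ∑ j, b j = ∑ y, (k - dY y) + k * q := by
    rw [Fintype.sum_sum_type]
    simp [b, mul_comm]
  have tot : ∑ i, a i = ∑ j, b j := by
    rw [hasum, hbsum]
    have e1 : k * Fintype.card X = k * m + k * q := by rw [hq]; ring
    have e2 : k * Fintype.card Y = k * m + k * p := by rw [hp]; ring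
    omega
  have hall : ∀ S : Finset (X ⊕ Fin p),
      ∑ i ∈ S, a i ≤ ∑ j ∈ univ.filter (fun j => ∃ i ∈ S, P i j), b j := by
    intro S
    by_cases hS1 : ∃ x, Sum.inl x ∈ S
    · by_cases hS2 : ∃ z, Sum.inr z ∈ S
      · obtain ⟨x, hx⟩ := hS1
        obtain ⟨z, hz⟩ := hS2
        have : (univ.filter (fun j : Y ⊕ Fin q => ∃ i ∈ S, P i j)) = univ := by
          ext j
          simp only [Finset.mem_filter, Finset.mem_univ, true_and, iff_true]
          rcases j with y | w
          · exact ⟨Sum.inr z, hz, trivial⟩
          · exact ⟨Sum.inl x, hx, trivial⟩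
        rw [this, ← tot]
        exact Finset.sum_le_sum_of_subset (Finset.subset_univ _)
      · -- only real rows
        obtain ⟨x0, hx0⟩ := hS1
        set S1 : Finset X := univ.filter (fun x => Sum.inl x ∈ S) with hS1d
        have hSeq : S = S1.map ⟨Sum.inl, Sum.inl_injective⟩ := by
          ext i
          rcases i with x | z
          · simp [hS1d]
          · simp only [Finset.mem_map, Function.Embedding.coeFn_mk, reduceCtorEq, and_false,
              exists_false, iff_false]
            exact fun h => hS2 ⟨z, h⟩
        have hs : ∑ i ∈ S, a i = ∑ x ∈ S1, (k - dX x) := by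
          rw [hSeq, Finset.sum_map]
          rfl
        set B : Finset Y := univ.filter (fun y => ∃ x ∈ S1, (x, y) ∈ E) with hB
        have hr : ∑ j ∈ univ.filter (fun j : Y ⊕ Fin q => ∃ i ∈ S, P i j), b j
            = ∑ y ∈ B, (k - dY y) + k * q := by
          rw [Finset.sum_filter, Fintype.sum_sum_type]
          congr 1
          · rw [hB, Finset.sum_filter]
            refine Finset.sum_congr rfl fun y _ => ?_
            have hiff : (∃ i ∈ S, P i (Sum.inl y)) ↔ (∃ x ∈ S1, (x, y) ∈ E) := by
              constructor
              · rintro ⟨i, hi, hP⟩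
                rcases i with x | z
                · exact ⟨x, by simpa [hS1d] using hi, hP⟩
                · exact absurd ⟨z, hi⟩ hS2
              · rintro ⟨x, hx, hP⟩
                exact ⟨Sum.inl x, by simpa [hS1d] using hx, hP⟩
            by_cases h : ∃ x ∈ S1, (x, y) ∈ E
            · rw [if_pos (hiff.2 h), if_pos h]
              rfl
            · rw [if_neg (fun h' => h (hiff.1 h')), if_neg h]
          · have : ∀ w : Fin q, (if ∃ i ∈ S, P i (Sum.inr w) then b (Sum.inr w) else 0) = k := by
              intro w
              rw [if_pos ⟨Sum.inl x0, hx0, trivial⟩]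
              rfl
            rw [Finset.sum_congr rfl fun w _ => this w]
            simp [mul_comm]
        rw [hs, hr]
        have hcov := hC (univ \ S1) B (fun e he => by
          by_cases h : e.1 ∈ S1
          · exact Or.inr (by rw [hB]; simp only [Finset.mem_filter, Finset.mem_univ, true_and]; exact ⟨e.1, h, he⟩)
          · exact Or.inl (by simp [h]))
        have hcardA : (univ \ S1).card + S1.card = Fintype.card X := by
          rw [Finset.card_sdiff_add_card_eq_card (Finset.subset_univ _), Finset.card_univ]
        have h1 := defX S1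
        have h2 := defY B
        rw [sumX] at h1
        rw [sumY] at h2
        have h3 : (E.filter (fun e => e.2 ∈ B)).card
            = (E.filter (fun e => e.1 ∈ S1)).card
              + (E.filter (fun e => e.1 ∈ univ \ S1 ∧ e.2 ∈ B)).card := by
          rw [← Finset.card_union_of_disjoint]
          · congr 1
            ext e
            simp only [Finset.mem_filter, Finset.mem_union, Finset.mem_sdiff, Finset.mem_univ,
              true_and]
            constructor
            · rintro ⟨he, hb⟩
              by_cases h : e.1 ∈ S1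
              · exact Or.inl ⟨he, h⟩
              · exact Or.inr ⟨he, h, hb⟩
            · rintro (⟨he, h⟩ | ⟨he, h, hb⟩)
              · refine ⟨he, ?_⟩
                rw [hB]
                simp only [Finset.mem_filter, Finset.mem_univ, true_and]
                exact ⟨e.1, h, he⟩
              · exact ⟨he, hb⟩
          · rw [Finset.disjoint_left]
            intro e h1 h2
            simp only [Finset.mem_filter, Finset.mem_sdiff, Finset.mem_univ, true_and] at h1 h2
            exact h2.2.1 h1.2
        have e1 : k * Fintype.card X = k * m + k * q := by rw [hq]; ring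
        have e3 : k * (univ \ S1).card + k * S1.card = k * Fintype.card X := by
          rw [← hcardA]; ring
        have e4 : k * ((univ \ S1).card + B.card) = k * (univ \ S1).card + k * B.card := by ring
        rw [e4] at hcov
        omega
    · by_cases hS2 : ∃ z, Sum.inr z ∈ S
      · obtain ⟨z0, hz0⟩ := hS2
        have hsub : S ⊆ (univ : Finset (Fin p)).map ⟨Sum.inr, Sum.inr_injective⟩ := by
          intro i hi
          rcases i with x | z
          · exact absurd ⟨x, hi⟩ hS1
          · simp
        have h1 : ∑ i ∈ S, a i ≤ k * p := by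
          calc ∑ i ∈ S, a i ≤ ∑ i ∈ (univ : Finset (Fin p)).map ⟨Sum.inr, Sum.inr_injective⟩, a i :=
                Finset.sum_le_sum_of_subset hsub
            _ = k * p := by
                rw [Finset.sum_map]
                simp [a, mul_comm]
        have h2 : ∑ y, (k - dY y) ≤
            ∑ j ∈ univ.filter (fun j : Y ⊕ Fin q => ∃ i ∈ S, P i j), b j := by
          have : ∑ y, (k - dY y)
              = ∑ j ∈ (univ : Finset Y).map ⟨Sum.inl, Sum.inl_injective⟩, b j := by
            rw [Finset.sum_map]
            rfl
          rw [this]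
          refine Finset.sum_le_sum_of_subset ?_
          intro j hj
          simp only [Finset.mem_map, Finset.mem_univ, true_and, Function.Embedding.coeFn_mk] at hj
          obtain ⟨y, rfl⟩ := hj
          simp only [Finset.mem_filter, Finset.mem_univ, true_and]
          exact ⟨Sum.inr z0, hz0, trivial⟩
        have e2 : k * Fintype.card Y = k * m + k * p := by rw [hp]; ring
        omega
      · have : S = ∅ := by
          rw [Finset.eq_empty_iff_forall_notMem]
          intro i hi
          rcases i with x | z
          · exact hS1 ⟨x, hi⟩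
          · exact hS2 ⟨z, hi⟩
        rw [this]
        simp
  obtain ⟨N0, hN0r, hN0c, hN0P⟩ := transport a b tot P hall
  let N : X ⊕ Fin p → Y ⊕ Fin q → ℕ := fun i j => N0 i j +
    (match i, j with
      | Sum.inl x, Sum.inl y => if (x, y) ∈ E then 1 else 0
      | Sum.inl _, Sum.inr _ => 0
      | Sum.inr _, Sum.inl _ => 0
      | Sum.inr _, Sum.inr _ => 0)
  have hNr : ∀ i, ∑ j, N i j = k := by
    intro i
    rw [Finset.sum_add_distrib, hN0r, Fintype.sum_sum_type]
    rcases i with x | z
    · have : ∑ y : Y, (if (x, y) ∈ E then 1 else 0) = dX x := by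
        rw [← Finset.card_filter]
        refine Finset.card_bij (fun y _ => (x, y)) ?_ ?_ ?_
        · intro y hy
          simpa using hy
        · intro y _ y' _ h
          exact (Prod.mk.inj h).2
        · rintro ⟨x', y⟩ he
          simp only [Finset.mem_filter] at he
          obtain ⟨he, rfl⟩ := he
          exact ⟨y, by simpa using he, rfl⟩
      simp only [this, Finset.sum_const_zero, add_zero]
      show k - dX x + dX x = k
      exact Nat.sub_add_cancel (dx x)
    · simp [a]
  have hNc : ∀ j, ∑ i, N i j = k := by
    intro j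
    rw [Finset.sum_add_distrib, hN0c, Fintype.sum_sum_type]
    rcases j with y | w
    · have : ∑ x : X, (if (x, y) ∈ E then 1 else 0) = dY y := by
        rw [← Finset.card_filter]
        refine Finset.card_bij (fun x _ => (x, y)) ?_ ?_ ?_
        · intro x hx
          simpa using hx
        · intro x _ x' _ h
          exact (Prod.mk.inj h).1
        · rintro ⟨x, y'⟩ he
          simp only [Finset.mem_filter] at he
          obtain ⟨he, rfl⟩ := he
          exact ⟨x, by simpa using he, rfl⟩
      simp only [this, Finset.sum_const_zero, add_zero]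
      show k - dY y + dY y = k
      exact Nat.sub_add_cancel (dy y)
    · simp [b]
  obtain ⟨σ, hσ⟩ := regular_decomp k N hNr hNc
  -- support facts
  have sup : ∀ c i j, σ c i = j → N i j ≠ 0 := by
    intro c i j h
    rw [hσ i j]
    exact (Finset.card_pos.2 ⟨c, by simp [h]⟩).ne'
  have supE : ∀ c x y, σ c (Sum.inl x) = Sum.inl y → (x, y) ∈ E := by
    intro c x y h
    by_contra hne
    have h1 := sup c _ _ h
    have h2 : N0 (Sum.inl x) (Sum.inl y) = 0 := by
      by_contra h3
      exact hne (hN0P _ _ h3)
    apply h1
    simp only [N, h2, hne, if_false]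
  have supR : ∀ c z w, σ c (Sum.inr z) ≠ Sum.inr w := by
    intro c z w h
    have h1 := sup c _ _ h
    apply h1
    have h2 : N0 (Sum.inr z) (Sum.inr w) = 0 := by
      by_contra h3
      exact hN0P _ _ h3
    simp only [N, h2]
  refine ⟨fun c => E.filter (fun e => σ c (Sum.inl e.1) = Sum.inl e.2), ?_, ?_, ?_, ?_, ?_⟩
  · intro c
    exact Finset.filter_subset _ _
  · intro c
    -- count
    have h1 : (E.filter (fun e => σ c (Sum.inl e.1) = Sum.inl e.2)).card
        = (univ.filter (fun x : X => (σ c (Sum.inl x)).isLeft = true)).card := by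
      refine Finset.card_bij (fun e _ => e.1) ?_ ?_ ?_
      · intro e he
        simp only [Finset.mem_filter, Finset.mem_univ, true_and] at he ⊢
        rw [he.2]
        rfl
      · intro e he f hf hef
        simp only [Finset.mem_filter] at he hf
        have h := he.2
        rw [hef, hf.2] at h
        exact Prod.ext hef (Sum.inl_injective h).symm
      · intro x hx
        simp only [Finset.mem_filter, Finset.mem_univ, true_and] at hx
        rcases hxy : σ c (Sum.inl x) with y | w
        · exact ⟨(x, y), by simp [supE c x y hxy, hxy], rfl⟩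
        · rw [hxy] at hx
          simp at hx
    have h2 : (univ.filter (fun x : X => ¬ (σ c (Sum.inl x)).isLeft = true)).card = q := by
      have h3 : (univ.filter (fun x : X => ¬ (σ c (Sum.inl x)).isLeft = true)).card
          = (univ : Finset (Fin q)).card := by
        symm
        have hpre : ∀ w : Fin q, ∃ x : X, σ c (Sum.inl x) = Sum.inr w := by
          intro w
          rcases hz : (σ c).symm (Sum.inr w) with x | z
          · exact ⟨x, by rw [← hz]; simp⟩
          · exfalso
            refine supR c z w ?_
            rw [← hz]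
            simp
        choose g hg using hpre
        refine Finset.card_bij (fun w _ => g w) ?_ ?_ ?_
        · intro w _
          simp [hg w]
        · intro w _ w' _ h
          have h0 : g w = g w' := h
          have := hg w
          rw [h0, hg w'] at this
          exact (Sum.inr_injective this).symm
        · intro x hx
          simp only [Finset.mem_filter, Finset.mem_univ, true_and] at hx
          rcases hxy : σ c (Sum.inl x) with y | w
          · rw [hxy] at hx
            simp at hx
          · refine ⟨w, Finset.mem_univ _, ?_⟩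
            have := hg w
            rw [← hxy] at this
            exact Sum.inl_injective ((σ c).injective this)
      rw [h3]
      simp
    have h4 := Finset.card_filter_add_card_filter_not (s := (univ : Finset X))
      (fun x : X => (σ c (Sum.inl x)).isLeft = true)
    rw [Finset.card_univ] at h4
    rw [h1]
    omega
  · intro c e he f hf hef
    simp only [Finset.mem_filter] at he hf
    have h := he.2
    rw [hef, hf.2] at h
    exact Prod.ext hef (Sum.inl_injective h).symm
  · intro c e he f hf hef
    simp only [Finset.mem_filter] at he hf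
    have h := he.2
    rw [hef, ← hf.2] at h
    exact Prod.ext (Sum.inl_injective ((σ c).injective h)) hef
  · rintro ⟨x, y⟩ he
    have h1 : N (Sum.inl x) (Sum.inl y) ≠ 0 := by
      simp only [N, he, if_true]
      omega
    rw [hσ] at h1
    obtain ⟨c, hc⟩ := Finset.card_pos.1 (Nat.pos_of_ne_zero h1)
    simp only [Finset.mem_filter, Finset.mem_univ, true_and] at hc
    exact ⟨c, by simp [he, hc]⟩

end Pool.Agent.Q253.BipCover
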