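import Mathlib

set_option autoImplicit false

/-!
Definitions for `MP_7e5e3f_co` and the existence of odd cycles in graphs that are not
2-colourable (the latter is copied from the starting file `TH583/HB/Cyc.lean`).
-/

namespace Pool.Agent.Q253.Corona

open Finset SimpleGraph

section Defs

variable {V : Type}

/-- The corona: the vertices lying in some maximum independent set. -/
def corona [Finite V] (G : SimpleGraph V) : Set V :=
  {v | ∃ S : Finset V, G.IsMaximumIndepSet S ∧ v ∈ S}

/-- The set `N(X)` of vertices adjacent to at least one vertex of `X`. -/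
def nbr (G : SimpleGraph V) (X : Finset V) : Set V := {v | ∃ x ∈ X, G.Adj x v}

/-- The difference `|X| - |N(X)|`. -/
noncomputable def diff (G : SimpleGraph V) (X : Finset V) : ℤ := (X.card : ℤ) - (nbr G X).ncard

/-- `X` is a critical independent set: independent, with `|X| - |N(X)|` maximum among the
independent sets. -/
def IsCritical (G : SimpleGraph V) (X : Finset V) : Prop :=
  G.IsIndepSet (X : Set V) ∧ ∀ Y : Finset V, G.IsIndepSet (Y : Set V) → diff G Y ≤ diff G X

/-- `ker(G)`: the intersection of all critical independent sets. -/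
def ker (G : SimpleGraph V) : Set V := {v | ∀ X : Finset V, IsCritical G X → v ∈ X}

/-- The edge sets of the odd cycles of `G`. -/
def oddCycles (G : SimpleGraph V) : Set (Set (Sym2 V)) :=
  {F | ∃ (v : V) (c : G.Walk v v), c.IsCycle ∧ Odd c.length ∧ F = {e | e ∈ c.edges}}

end Defs

section walks

variable {V : Type} {G : SimpleGraph V}

/-- there is a walk of length `n` from `u` to `v` -/
def HW (G : SimpleGraph V) (n : ℕ) (u v : V) : Prop := ∃ p : G.Walk u v, p.length = n

structure MinOdd (G : SimpleGraph V) (g : ℕ) (c : ℕ → V) : Prop where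
  adj : ∀ i < g, G.Adj (c i) (c (i+1))
  closed : c g = c 0
  odd : Odd g
  min : ∀ n, Odd n → n < g → ∀ v, ¬ HW G n v v

lemma HW.refl (u : V) : HW G 0 u u := ⟨SimpleGraph.Walk.nil, rfl⟩

lemma HW.of_adj {u v : V} (h : G.Adj u v) : HW G 1 u v :=
  ⟨SimpleGraph.Walk.cons h SimpleGraph.Walk.nil, rfl⟩

lemma HW.trans {a b : ℕ} {u v w : V} (h1 : HW G a u v) (h2 : HW G b v w) : HW G (a + b) u w := by
  obtain ⟨p, hp⟩ := h1
  obtain ⟨q, hq⟩ := h2
  exact ⟨p.append q, by rw [SimpleGraph.Walk.length_append, hp, hq]⟩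

lemma HW.symm {a : ℕ} {u v : V} (h1 : HW G a u v) : HW G a v u := by
  obtain ⟨p, hp⟩ := h1
  exact ⟨p.reverse, by rw [SimpleGraph.Walk.length_reverse, hp]⟩

lemma HW_seg (c : ℕ → V) (g : ℕ) (hc : ∀ i < g, G.Adj (c i) (c (i+1))) (i : ℕ) (d : ℕ)
    (h : i + d ≤ g) : HW G d (c i) (c (i + d)) := by
  induction d with
  | zero => exact HW.refl _
  | succ d ih =>
    have h1 := ih (by omega)
    exact h1.trans (HW.of_adj (hc (i+d) (by omega)))

namespace MinOdd
variable {g : ℕ} {c : ℕ → V}

lemma arc1 (M : MinOdd G g c) {i j : ℕ} (hij : i ≤ j) (hj : j ≤ g) : HW G (j - i) (c i) (c j) := by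
  have w1 := HW_seg c g M.adj i (j - i) (by omega)
  rwa [show i + (j - i) = j by omega] at w1

lemma arc2 (M : MinOdd G g c) {i j : ℕ} (hij : i ≤ j) (hj : j ≤ g) :
    HW G (g - (j - i)) (c i) (c j) := by
  have w2 := M.arc1 hj le_rfl
  rw [M.closed] at w2
  have w3 := M.arc1 (Nat.zero_le i) (hij.trans hj)
  have w4 := (w2.trans w3).symm
  rwa [show g - j + (i - 0) = g - (j - i) by omega] at w4

lemma inj (M : MinOdd G g c) {i j : ℕ} (hij : i < j) (hj : j < g) : c i ≠ c j := by
  intro heq
  have w1 := M.arc1 hij.le hj.le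
  have w2 := M.arc2 hij.le hj.le
  rw [← heq] at w1 w2
  obtain ⟨b, hb⟩ := M.odd
  rcases Nat.even_or_odd (j - i) with ⟨a, ha⟩ | ho
  · exact M.min (g - (j - i)) ⟨b - a, by omega⟩ (by omega) _ w2
  · exact M.min (j - i) ho (by omega) _ w1

end MinOdd

/-- a graph which is not `2`-colourable has an odd cycle -/
theorem exists_odd_cycle (h : ¬ G.Colorable 2) :
    ∃ (v : V) (p : G.Walk v v), p.IsCycle ∧ Odd p.length := by
  classical
  rw [SimpleGraph.two_colorable_iff_forall_loop_even] at h
  push Not at h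
  obtain ⟨u, w, hw⟩ := h
  have hex : ∃ n, Odd n ∧ ∃ v, HW G n v v := ⟨w.length, by simpa using hw, u, w, rfl⟩
  obtain ⟨hodd, v', p, hp⟩ := Nat.find_spec hex
  set g := Nat.find hex with hg
  have M : MinOdd G g p.getVert := by
    constructor
    · intro i hi
      exact p.adj_getVert_succ (by rw [hp]; exact hi)
    · rw [← hp]; simp
    · exact hodd
    · intro n hn hlt v hv
      exact Nat.find_min hex hlt ⟨hn, v, hv⟩
  refine ⟨v', p, ?_, by rw [hp]; exact M.odd⟩
  have h3g : 3 ≤ g := by
    obtain ⟨b, hb⟩ := M.odd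
    rcases Nat.lt_or_ge g 3 with h | h
    · have hg1 : g = 1 := by omega
      have := M.adj 0 (by omega)
      have h2 := M.closed
      rw [hg1] at h2
      simp only [zero_add] at this
      rw [h2] at this
      exact absurd rfl this.ne
    · exact h
  rw [SimpleGraph.Walk.isCycle_iff_isPath_tail_and_le_length]
  have hnil : ¬ p.Nil := by
    intro hn
    have := SimpleGraph.Walk.length_eq_zero_iff.mpr hn
    omega
  have htl := SimpleGraph.Walk.length_tail_add_one hnil
  refine ⟨?_, by omega⟩
  rw [← SimpleGraph.Walk.IsPath.getVert_injOn_iff]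
  intro a ha b hb hab
  simp only [Set.mem_ofPred_eq] at ha hb
  rw [SimpleGraph.Walk.getVert_tail, SimpleGraph.Walk.getVert_tail] at hab
  have key : ∀ a b, a < b → b ≤ p.tail.length → p.getVert (a+1) ≠ p.getVert (b+1) := by
    intro a b hab hb
    rcases Nat.lt_or_ge (b+1) g with h1 | h1
    · exact M.inj (by omega) h1
    · have hbl : b + 1 = g := by omega
      rw [hbl, M.closed]
      exact (M.inj (by omega) (by omega)).symm
  by_contra hne
  rcases lt_or_gt_of_ne hne with h1 | h1
  · exact key a b h1 hb hab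
  · exact key b a h1 ha hab.symm

end walks

end Pool.Agent.Q253.Corona
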