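import Mathlib

set_option autoImplicit false

/-!
Geodesic cycles: a shortest closed walk among those with odd intersection with an edge set is a
geodesic cycle.
-/

namespace Pool.Agent.Q253.Geodesic

open SimpleGraph

variable {V : Type*} {G : SimpleGraph V}

/-- Sum of `g` over the edges of a walk. -/
def wsum {M : Type*} [AddCommMonoid M] (g : Sym2 V → M) {u v : V} (p : G.Walk u v) : M :=
  (p.edges.map g).sum

section basic

variable {M : Type*} [AddCommMonoid M] (g : Sym2 V → M)

@[simp] theorem wsum_nil {u : V} : wsum g (Walk.nil : G.Walk u u) = 0 := by simp [wsum]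

@[simp] theorem wsum_cons {u v w : V} (h : G.Adj u v) (p : G.Walk v w) :
    wsum g (Walk.cons h p) = g s(u, v) + wsum g p := by simp [wsum]

@[simp] theorem wsum_append {u v w : V} (p : G.Walk u v) (q : G.Walk v w) :
    wsum g (p.append q) = wsum g p + wsum g q := by simp [wsum]

@[simp] theorem wsum_reverse {u v : V} (p : G.Walk u v) : wsum g p.reverse = wsum g p := by
  simp [wsum, List.sum_reverse]

theorem wsum_perm {u v u' v' : V} (p : G.Walk u v) (q : G.Walk u' v')
    (h : p.edges.Perm q.edges) : wsum g p = wsum g q :=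
  (h.map g).sum_eq

end basic

/-- `C` is an `ℓ`-geodesic cycle: a cycle such that for all `x`, `y` on it no `x`-`y` path of `G`
is strictly shorter than both `x`-`y` arcs of `C`.  The two arcs are the initial part up to `y`
and the remaining part of the cycle `C` started at `x`. -/
def IsGeodesicCycle [DecidableEq V] (ℓ : Sym2 V → ℝ) {u : V} (C : G.Walk u u) : Prop :=
  C.IsCycle ∧ ∀ (x y : V) (hx : x ∈ C.support) (hy : y ∈ (C.rotate x hx).support)
    (P : G.Walk x y), P.IsPath →
    ¬ (wsum ℓ P < wsum ℓ ((C.rotate x hx).takeUntil y hy) ∧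
       wsum ℓ P < wsum ℓ ((C.rotate x hx).dropUntil y hy))

theorem wsum_nonneg (ℓ : Sym2 V → ℝ) (hℓ : ∀ e ∈ G.edgeSet, 0 < ℓ e) {u v : V} (p : G.Walk u v) :
    0 ≤ wsum ℓ p := by
  induction p with
  | nil => simp
  | cons h p ih =>
    rw [wsum_cons]
    have := hℓ _ ((G.mem_edgeSet).2 h)
    linarith

theorem wsum_pos (ℓ : Sym2 V → ℝ) (hℓ : ∀ e ∈ G.edgeSet, 0 < ℓ e) {u v : V} (p : G.Walk u v)
    (hp : 0 < p.length) : 0 < wsum ℓ p := by
  cases p with
  | nil => simp at hp
  | cons h p =>
    rw [wsum_cons]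
    have := hℓ _ ((G.mem_edgeSet).2 h)
    have := wsum_nonneg ℓ hℓ p
    linarith

theorem le_wsum_of_mem (ℓ : Sym2 V → ℝ) (hℓ : ∀ e ∈ G.edgeSet, 0 < ℓ e) {u v : V}
    (p : G.Walk u v) (e : Sym2 V) (he : e ∈ p.edges) : ℓ e ≤ wsum ℓ p := by
  induction p with
  | nil => simp at he
  | cons h p ih =>
    rw [wsum_cons]
    rw [Walk.edges_cons, List.mem_cons] at he
    rcases he with rfl | he
    · have := wsum_nonneg ℓ hℓ p
      linarith
    · have := ih he
      have := hℓ _ ((G.mem_edgeSet).2 h)
      linarith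

theorem length_mul_le (ℓ : Sym2 V → ℝ) (δ : ℝ) (hδ : ∀ e ∈ G.edgeSet, δ ≤ ℓ e) {u v : V}
    (p : G.Walk u v) : p.length * δ ≤ wsum ℓ p := by
  induction p with
  | nil => simp
  | cons h p ih =>
    rw [wsum_cons, Walk.length_cons]
    have := hδ _ ((G.mem_edgeSet).2 h)
    push_cast
    linarith

/-- A walk which is not a path contains a nontrivial closed subwalk. -/
theorem exists_closed_of_not_isPath [DecidableEq V] {u v : V} (p : G.Walk u v) (hp : ¬ p.IsPath) :
    ∃ (x : V) (a : G.Walk u x) (c : G.Walk x x) (b : G.Walk x v),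
      0 < c.length ∧ p = a.append (c.append b) := by
  induction p with
  | nil => simp at hp
  | @cons u v w h p ih =>
    by_cases hpp : p.IsPath
    · have hu : u ∈ p.support := by
        by_contra hne
        exact hp (hpp.cons hne)
      refine ⟨u, Walk.nil, Walk.cons h (p.takeUntil u hu), p.dropUntil u hu, by simp, ?_⟩
      rw [Walk.nil_append, Walk.cons_append, Walk.take_spec]
    · obtain ⟨x, a, c, b, hc, hpe⟩ := ih hpp
      exact ⟨x, Walk.cons h a, c, b, hc, by rw [Walk.cons_append, ← hpe]⟩

/-- Existence of a shortest odd closed walk. -/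
theorem exists_min [Fintype V] [DecidableEq V] [DecidableRel G.Adj] (ℓ : Sym2 V → ℝ)
    (hℓ : ∀ e ∈ G.edgeSet, 0 < ℓ e) (g : Sym2 V → ZMod 2) {u₀ : V} (w₀ : G.Walk u₀ u₀)
    (hw₀ : wsum g w₀ = 1) :
    ∃ (u : V) (w : G.Walk u u), wsum g w = 1 ∧ ∀ (v : V) (w' : G.Walk v v), wsum g w' = 1 →
      wsum ℓ w ≤ wsum ℓ w' := by
  classical
  -- least edge length
  have hne : G.edgeFinset.Nonempty := by
    cases w₀ with
    | nil => simp at hw₀
    | cons h p => exact ⟨_, mem_edgeFinset.2 ((G.mem_edgeSet).2 h)⟩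
  obtain ⟨e₀, he₀, hmin⟩ := Finset.exists_min_image G.edgeFinset ℓ hne
  have hδ : 0 < ℓ e₀ := hℓ _ (by simpa using he₀)
  obtain ⟨N, hN⟩ := exists_nat_gt (wsum ℓ w₀ / ℓ e₀)
  have hlen : ∀ (u v : V) (p : G.Walk u v), wsum ℓ p ≤ wsum ℓ w₀ → p.length < N := by
    intro u v p hp
    have h1 := length_mul_le ℓ (ℓ e₀) (fun e he => hmin e (by simpa using he)) p
    have h2 : (p.length : ℝ) ≤ wsum ℓ w₀ / ℓ e₀ := by
      rw [le_div_iff₀ hδ]
      linarith
    exact_mod_cast h2.trans_lt hN
  let A := Σ u : V, {p : G.Walk u u // p.length < N}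
  let S : Set A := {a | wsum g a.2.1 = 1}
  have hSfin : S.Finite := Set.toFinite S
  have hSne : S.Nonempty := ⟨⟨u₀, w₀, hlen _ _ w₀ le_rfl⟩, hw₀⟩
  obtain ⟨a, ha, hamin⟩ := Set.exists_min_image S (fun a => wsum ℓ a.2.1) hSfin hSne
  refine ⟨a.1, a.2.1, ha, ?_⟩
  intro v w' hw'
  by_cases h : wsum ℓ w' ≤ wsum ℓ w₀
  · exact hamin ⟨v, w', hlen _ _ w' h⟩ hw'
  · have := hamin ⟨u₀, w₀, hlen _ _ w₀ le_rfl⟩ hw₀
    simp only at this
    linarith

theorem zmod2_cases (a : ZMod 2) : a = 0 ∨ a = 1 := by
  revert a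
  decide

/-- A shortest odd closed walk is a geodesic cycle. -/
theorem min_geodesic [DecidableEq V] (ℓ : Sym2 V → ℝ) (hℓ : ∀ e ∈ G.edgeSet, 0 < ℓ e)
    (g : Sym2 V → ZMod 2) {u : V} (w : G.Walk u u) (hw : wsum g w = 1)
    (hmin : ∀ (v : V) (w' : G.Walk v v), wsum g w' = 1 → wsum ℓ w ≤ wsum ℓ w') :
    IsGeodesicCycle ℓ w := by
  refine ⟨?_, ?_⟩
  · cases w with
    | nil => simp at hw
    | @cons _ v _ h p =>
      rw [Walk.cons_isCycle_iff]
      have hpath : p.IsPath := by
        by_contra hp
        obtain ⟨x, a, c, b, hc, hpe⟩ := exists_closed_of_not_isPath p hp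
        have hcpos := wsum_pos ℓ hℓ c hc
        have hodd : wsum g (Walk.cons h (a.append b)) + wsum g c = 1 := by
          rw [← hw, hpe]
          simp only [wsum_cons, wsum_append]
          ring
        have hlen : wsum ℓ (Walk.cons h p) = wsum ℓ (Walk.cons h (a.append b)) + wsum ℓ c := by
          rw [hpe]
          simp only [wsum_cons, wsum_append]
          ring
        have hpos2 : 0 < wsum ℓ (Walk.cons h (a.append b)) :=
          wsum_pos ℓ hℓ _ (by simp)
        rcases zmod2_cases (wsum g c) with h0 | h1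
        · rw [h0, add_zero] at hodd
          have := hmin _ _ hodd
          linarith
        · have := hmin _ _ h1
          linarith
      refine ⟨hpath, ?_⟩
      intro he
      cases p with
      | nil => exact G.loopless.irrefl _ h
      | @cons _ x _ h' p' =>
        rw [Walk.edges_cons, List.mem_cons] at he
        rw [Walk.cons_isPath_iff] at hpath
        rcases he with he | he
        · have hxu : x = u := by
            rw [Sym2.eq_iff] at he
            rcases he with ⟨h1, _⟩ | ⟨h1, _⟩
            · exact absurd h1 h.ne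
            · exact h1.symm
          subst hxu
          have hnil : p' = Walk.nil := by
            have := hpath.1
            rw [Walk.isPath_iff_nil] at this
            exact Walk.eq_nil_iff_nil.2 this
          rw [hnil] at hw
          simp only [wsum_cons, wsum_nil, add_zero] at hw
          rw [Sym2.eq_swap (a := v)] at hw
          have : g s(x, v) + g s(x, v) = 0 := CharTwo.add_self_eq_zero _
          rw [this] at hw
          exact absurd hw (by decide)
        · exact hpath.2 (p'.snd_mem_support_of_mem_edges he)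
  · intro x y hx hy P _ hlt
    set w' := w.rotate x hx with hw'
    have hspec : (w'.takeUntil y hy).append (w'.dropUntil y hy) = w' := Walk.take_spec w' hy
    have hgw : wsum g w' = 1 := by
      rw [← hw]
      exact wsum_perm g _ _ (w.rotate_edges x hx).perm
    have hℓw : wsum ℓ w' = wsum ℓ w := wsum_perm ℓ _ _ (w.rotate_edges x hx).perm
    have hg1 : wsum g (w'.takeUntil y hy) + wsum g (w'.dropUntil y hy) = 1 := by
      rw [← wsum_append, hspec, hgw]
    have hℓ1 : wsum ℓ (w'.takeUntil y hy) + wsum ℓ (w'.dropUntil y hy) = wsum ℓ w := by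
      rw [← wsum_append, hspec, hℓw]
    have hsum : wsum g ((w'.takeUntil y hy).append P.reverse)
        + wsum g (P.append (w'.dropUntil y hy)) = 1 := by
      simp only [wsum_append, wsum_reverse]
      have : wsum g P + wsum g P = 0 := CharTwo.add_self_eq_zero _
      linear_combination hg1 + this
    rcases zmod2_cases (wsum g ((w'.takeUntil y hy).append P.reverse)) with h0 | h1
    · rw [h0, zero_add] at hsum
      have := hmin _ _ hsum
      rw [wsum_append] at this
      linarith [hlt.1, hlt.2]
    · have := hmin _ _ h1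
      rw [wsum_append, wsum_reverse] at this
      linarith [hlt.1, hlt.2]

end Pool.Agent.Q253.Geodesic
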